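import Pool.Agent.Y81.CE.Lower

set_option autoImplicit false

/-! Combinatorial inequality for colour patterns. -/

namespace Pool.Agent.Y81.CE

open SimpleGraph Finset

lemma ctr_of_empty {h R : ℕ} (H : SimpleGraph (Fin h)) (χ : Fin h → Fin R) (hm : mono H χ = ∅) :
    #(ctr H χ) = h := by
  have : ctr H χ = univ := by
    ext x
    simp only [mem_ctr, mem_univ, iff_true]
    intro e he
    rw [hm] at he
    exact absurd he (notMem_empty _)
  rw [this, card_univ, Fintype.card_fin]

lemma ctr_of_one {h R : ℕ} (H : SimpleGraph (Fin h)) (χ : Fin h → Fin R) (hm : #(mono H χ) = 1) :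
    #(ctr H χ) = 2 := by
  classical
  obtain ⟨e, he⟩ := Finset.card_eq_one.1 hm
  have he' : e ∈ mono H χ := by rw [he]; exact mem_singleton_self _
  rw [mem_mono] at he'
  have : ctr H χ = {e.1, e.2} := by
    ext x
    rw [mem_ctr, he]
    simp only [mem_singleton, forall_eq, mem_insert]
    constructor
    · rintro (h | h)
      · exact Or.inl h.symm
      · exact Or.inr h.symm
    · rintro (h | h)
      · exact Or.inl h.symm
      · exact Or.inr h.symm
  rw [this, card_pair he'.1.ne]

/-- the special pattern -/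
lemma exists_star {h R : ℕ} (hR : h ≤ R) (H : SimpleGraph (Fin h)) (x y z : Fin h) (hxy : H.Adj x y)
    (hxz : H.Adj x z) (hyz : y ≠ z) (hn : ¬ H.Adj y z) :
    ∃ χ : Fin h → Fin R, 1 < #(mono H χ) ∧ 0 < #(ctr H χ) := by
  classical
  let χ : Fin h → Fin R := fun w => Fin.castLE hR (if w = y ∨ w = z then x else w)
  have hχ : ∀ a b, χ a = χ b ↔ (if a = y ∨ a = z then x else a) = (if b = y ∨ b = z then x else b) := by
    intro a b
    simp only [χ]
    exact (Fin.castLE_injective hR).eq_iff
  have hmem : ∀ a b, H.Adj a b → χ a = χ b → a = x ∨ b = x := by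
    intro a b hab hc
    rw [hχ] at hc
    by_contra hcon
    push Not at hcon
    by_cases ha : a = y ∨ a = z
    · by_cases hb : b = y ∨ b = z
      · rcases ha with rfl | rfl <;> rcases hb with rfl | rfl
        · exact hab.ne rfl
        · exact hn hab
        · exact hn hab.symm
        · exact hab.ne rfl
      · rw [if_pos ha, if_neg hb] at hc
        exact hcon.2 hc.symm
    · by_cases hb : b = y ∨ b = z
      · rw [if_neg ha, if_pos hb] at hc
        exact hcon.1 hc
      · rw [if_neg ha, if_neg hb] at hc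
        exact hab.ne hc
  have hx : χ x = χ y ∧ χ x = χ z := by
    constructor
    · rw [hχ, if_neg (by rintro (h | h); exacts [hxy.ne h, hxz.ne h]), if_pos (Or.inl rfl)]
    · rw [hχ, if_neg (by rintro (h | h); exacts [hxy.ne h, hxz.ne h]), if_pos (Or.inr rfl)]
  refine ⟨χ, ?_, ?_⟩
  · rw [Finset.one_lt_card]
    have m1 : ∀ w, H.Adj x w → χ x = χ w → (min x w, max x w) ∈ mono H χ := by
      intro w h1 h2
      rw [mem_mono]
      rcases lt_or_gt_of_ne h1.ne with h3 | h3
      · simp only [min_eq_left h3.le, max_eq_right h3.le]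
        exact ⟨h3, h1, h2⟩
      · simp only [min_eq_right h3.le, max_eq_left h3.le]
        exact ⟨h3, h1.symm, h2.symm⟩
    refine ⟨_, m1 y hxy hx.1, _, m1 z hxz hx.2, ?_⟩
    intro h
    rw [Prod.mk.injEq] at h
    apply hyz
    rcases le_total x y with a1 | a1 <;> rcases le_total x z with a2 | a2
    · have := h.2
      rwa [max_eq_right a1, max_eq_right a2] at this
    · have h1 := h.1
      have h2 := h.2
      rw [min_eq_left a1, min_eq_right a2] at h1
      exact absurd h1 hxz.ne
    · have h1 := h.1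
      rw [min_eq_right a1, min_eq_left a2] at h1
      exact absurd h1.symm hxy.ne
    · have := h.1
      rwa [min_eq_right a1, min_eq_right a2] at this
  · rw [Finset.card_pos]
    refine ⟨x, ?_⟩
    rw [mem_ctr]
    intro e he
    rw [mem_mono] at he
    exact hmem _ _ he.2.1 he.2.2

/-- symmetric sum over the proper patterns -/
lemma sum_shift {h r : ℕ} (H : SimpleGraph (Fin h)) (δ : Fin (r + 1) → ℝ) (hδ : ∑ i, δ i = 0) (x : Fin h) :
    ∑ χ : Fin h → Fin (r + 1) with mono H χ = ∅, δ (χ x) = 0 := by
  classical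
  have h1 : ∀ j : Fin (r + 1), ∑ χ : Fin h → Fin (r + 1) with mono H χ = ∅, δ (χ x) =
      ∑ χ : Fin h → Fin (r + 1) with mono H χ = ∅, δ (χ x + j) := by
    intro j
    symm
    refine Finset.sum_bij' (fun χ _ w => χ w + j) (fun χ _ w => χ w - j) ?_ ?_ ?_ ?_ ?_
    · intro χ hχ
      rw [mem_filter] at hχ ⊢
      refine ⟨mem_univ _, ?_⟩
      rw [← hχ.2]
      ext e
      rw [mem_mono, mem_mono]
      simp
    · intro χ hχ
      rw [mem_filter] at hχ ⊢
      refine ⟨mem_univ _, ?_⟩
      rw [← hχ.2]
      ext e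
      rw [mem_mono, mem_mono]
      simp
    · intro χ _
      funext w
      simp
    · intro χ _
      funext w
      simp
    · intro χ _
      rfl
  have h2 : ∑ j : Fin (r + 1), ∑ χ : Fin h → Fin (r + 1) with mono H χ = ∅, δ (χ x) = 0 := by
    rw [Finset.sum_congr rfl fun j _ => h1 j, Finset.sum_comm]
    apply Finset.sum_eq_zero
    intro χ _
    rw [← hδ]
    exact Fintype.sum_equiv (Equiv.addLeft (χ x)) _ _ fun j => rfl
  rw [Finset.sum_const, card_univ, Fintype.card_fin, nsmul_eq_mul] at h2
  rcases mul_eq_zero.1 h2 with h3 | h3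
  · exfalso
    have : ((r + 1 : ℕ) : ℝ) ≠ 0 := by positivity
    exact this h3
  · exact h3

end Pool.Agent.Y81.CE
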