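import Mathlib

set_option autoImplicit false

/-! Elementary estimates. -/

namespace Pool.Agent.Y81.CE

open Finset

lemma prod_second {ι : Type*} (s : Finset ι) (x : ι → ℝ) :
    |∏ i ∈ s, (1 + x i) - 1 - ∑ i ∈ s, x i| ≤
      (∑ i ∈ s, |x i|) ^ 2 * Real.exp (∑ i ∈ s, |x i|) := by
  classical
  induction s using Finset.induction_on with
  | empty => simp
  | insert a s ha ih =>
    rw [Finset.prod_insert ha, Finset.sum_insert ha, Finset.sum_insert ha]
    set P := ∏ i ∈ s, (1 + x i)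
    set S := ∑ i ∈ s, x i
    set Q := ∑ i ∈ s, |x i| with hQ
    have hQ0 : 0 ≤ Q := Finset.sum_nonneg fun i _ => abs_nonneg _
    have h1 : |P - 1| ≤ Q * Real.exp Q := by
      have h2 := Finset.norm_prod_one_add_sub_one_le s x
      simp only [Real.norm_eq_abs] at h2
      refine h2.trans ?_
      have h3 : 1 - Q ≤ Real.exp (-Q) := by
        have := Real.add_one_le_exp (-Q); linarith
      have h4 : Real.exp (-Q) * Real.exp Q = 1 := by rw [← Real.exp_add]; simp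
      nlinarith [Real.exp_pos Q]
    have e : (1 + x a) * P - 1 - (x a + S) = (P - 1 - S) + x a * (P - 1) := by ring
    rw [e]
    refine (abs_add_le _ _).trans ?_
    rw [abs_mul]
    have h5 : |x a| * |P - 1| ≤ |x a| * (Q * Real.exp Q) := by gcongr
    have h6 : Real.exp Q ≤ Real.exp (|x a| + Q) := Real.exp_le_exp.2 (by linarith [abs_nonneg (x a)])
    calc _ ≤ Q ^ 2 * Real.exp Q + |x a| * (Q * Real.exp Q) := add_le_add ih h5
      _ = (Q ^ 2 + |x a| * Q) * Real.exp Q := by ring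
      _ ≤ (|x a| + Q) ^ 2 * Real.exp (|x a| + Q) := by
        refine mul_le_mul ?_ h6 (Real.exp_pos _).le (by positivity)
        nlinarith [abs_nonneg (x a), mul_nonneg (abs_nonneg (x a)) hQ0, sq_nonneg (|x a|)]

/-- second order expansion of a product -/
lemma expand (m : ℕ) (C : ℝ) (hC : 0 ≤ C) : ∃ K : ℝ, 0 ≤ K ∧ ∀ N : ℝ, 1 ≤ N → ∀ ε : Fin (m + 2) → ℝ,
    (∀ x, |ε x| ≤ C) → |∏ x, (N + ε x) - N ^ (m + 2) - N ^ (m + 1) * ∑ x, ε x| ≤ K * N ^ m := by
  refine ⟨((m + 2) * C) ^ 2 * Real.exp ((m + 2) * C), by positivity, ?_⟩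
  intro N hN ε hε
  have hN0 : 0 < N := by linarith
  have h1 := prod_second univ (fun x => ε x / N)
  have e1 : ∏ x, (N + ε x) = N ^ (m + 2) * ∏ x, (1 + ε x / N) := by
    have : N ^ (m + 2) = ∏ x : Fin (m + 2), N := by simp
    rw [this, ← Finset.prod_mul_distrib]
    refine Finset.prod_congr rfl fun x _ => ?_
    field_simp
  have e2 : ∑ x, ε x / N = (∑ x, ε x) / N := by rw [Finset.sum_div]
  have e3 : ∏ x, (N + ε x) - N ^ (m + 2) - N ^ (m + 1) * ∑ x, ε x =
      N ^ (m + 2) * (∏ x, (1 + ε x / N) - 1 - ∑ x, ε x / N) := by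
    rw [e1, e2]
    have : N ^ (m + 2) * ((∑ x, ε x) / N) = N ^ (m + 1) * ∑ x, ε x := by
      rw [pow_succ N (m + 1)]; field_simp
    rw [mul_sub, mul_sub, this, mul_one]
  rw [e3, abs_mul, abs_of_nonneg (by positivity : (0 : ℝ) ≤ N ^ (m + 2))]
  have h2 : ∑ x, |ε x / N| ≤ (m + 2) * C / N := by
    calc ∑ x, |ε x / N| ≤ ∑ x : Fin (m + 2), C / N := by
          refine Finset.sum_le_sum fun x _ => ?_
          rw [abs_div, abs_of_pos hN0]
          exact div_le_div_of_nonneg_right (hε x) hN0.le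
      _ = (m + 2) * C / N := by
          rw [Finset.sum_const, card_univ, Fintype.card_fin, nsmul_eq_mul]
          push_cast
          ring
  have h3 : (m + 2) * C / N ≤ (m + 2) * C := div_le_self (by positivity) hN
  have h4 : (0 : ℝ) ≤ ∑ x, |ε x / N| := Finset.sum_nonneg fun x _ => abs_nonneg _
  calc N ^ (m + 2) * |∏ x, (1 + ε x / N) - 1 - ∑ x, ε x / N|
      ≤ N ^ (m + 2) * ((∑ x, |ε x / N|) ^ 2 * Real.exp (∑ x, |ε x / N|)) :=
        mul_le_mul_of_nonneg_left h1 (by positivity)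
    _ ≤ N ^ (m + 2) * (((m + 2) * C / N) ^ 2 * Real.exp ((m + 2) * C)) := by
        apply mul_le_mul_of_nonneg_left _ (by positivity)
        apply mul_le_mul _ _ (Real.exp_pos _).le (by positivity)
        · exact pow_le_pow_left₀ h4 h2 2
        · exact Real.exp_le_exp.2 (h2.trans h3)
    _ = ((m + 2) * C) ^ 2 * Real.exp ((m + 2) * C) * N ^ m := by
        rw [pow_add N m 2]
        field_simp

lemma pow_up (p : ℕ) (C : ℝ) (hC : 0 ≤ C) : ∃ K : ℝ, 0 ≤ K ∧ ∀ N : ℝ, 1 ≤ N →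
    (N + C) ^ (p + 1) ≤ N ^ (p + 1) + K * N ^ p := by
  induction p with
  | zero => exact ⟨C, hC, fun N hN => by simp⟩
  | succ p ih =>
    obtain ⟨K, hK, h⟩ := ih
    refine ⟨C + K + C * K, by positivity, fun N hN => ?_⟩
    have hN0 : 0 < N := by linarith
    have h1 := mul_le_mul_of_nonneg_left (h N hN) (by linarith : 0 ≤ N + C)
    have h2 : N ^ p ≤ N ^ (p + 1) := pow_le_pow_right₀ hN (Nat.le_succ p)
    have h3 : C * K * N ^ p ≤ C * K * N ^ (p + 1) := mul_le_mul_of_nonneg_left h2 (by positivity)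
    calc (N + C) ^ (p + 1 + 1) = (N + C) * (N + C) ^ (p + 1) := by ring
      _ ≤ (N + C) * (N ^ (p + 1) + K * N ^ p) := h1
      _ = N ^ (p + 1 + 1) + (C + K) * N ^ (p + 1) + C * K * N ^ p := by ring
      _ ≤ N ^ (p + 1 + 1) + (C + K) * N ^ (p + 1) + C * K * N ^ (p + 1) := by linarith
      _ = _ := by ring

lemma pow_low (p : ℕ) (C : ℝ) (hC : 0 ≤ C) : ∃ K : ℝ, 0 ≤ K ∧ ∀ N : ℝ, 1 ≤ N → C ≤ N →
    N ^ (p + 1) - K * N ^ p ≤ (N - C) ^ (p + 1) := by
  induction p with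
  | zero => exact ⟨C, hC, fun N hN _ => by simp⟩
  | succ p ih =>
    obtain ⟨K, hK, h⟩ := ih
    refine ⟨C + K, by positivity, fun N hN hCN => ?_⟩
    have hN0 : 0 < N := by linarith
    have h1 := mul_le_mul_of_nonneg_left (h N hN hCN) (by linarith : 0 ≤ N - C)
    have h3 : 0 ≤ C * K * N ^ p := by positivity
    calc N ^ (p + 1 + 1) - (C + K) * N ^ (p + 1) ≤
        N ^ (p + 1 + 1) - (C + K) * N ^ (p + 1) + C * K * N ^ p := by linarith
      _ = (N - C) * (N ^ (p + 1) - K * N ^ p) := by ring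
      _ ≤ (N - C) * (N - C) ^ (p + 1) := h1
      _ = _ := by ring

lemma sizes {r n e : ℕ} (a : Fin (r + 1) → ℕ) (hs : ∑ i, a i = n)
    (hu : ∀ i, (r + 1) * a i ≤ n + (r + 1) * e) (i : Fin (r + 1)) :
    |(a i : ℝ) - n / (r + 1)| ≤ (r + 1) * e := by
  have hr : (0 : ℝ) < r + 1 := by positivity
  have h1 : ∀ j, (r + 1 : ℝ) * a j ≤ n + (r + 1) * e := fun j => by exact_mod_cast hu j
  have h2 : ∀ j, (a j : ℝ) - n / (r + 1) ≤ e := by
    intro j
    have h4 : (a j : ℝ) ≤ (n + (r + 1) * e) / (r + 1) := by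
      rw [le_div_iff₀ hr]; linarith [h1 j]
    have h5 : ((n : ℝ) + (r + 1) * e) / (r + 1) = n / (r + 1) + e := by
      field_simp
    linarith
  have h3 : ∑ j, ((a j : ℝ) - n / (r + 1)) = 0 := by
    rw [Finset.sum_sub_distrib, Finset.sum_const, card_univ, Fintype.card_fin, nsmul_eq_mul,
      ← Nat.cast_sum, hs]
    push_cast
    field_simp
    ring
  rw [abs_le]
  have he : (0 : ℝ) ≤ e := Nat.cast_nonneg _
  constructor
  · have h4 := (add_sum_erase univ (fun j => ((a j : ℝ) - n / (r + 1))) (mem_univ i))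
    rw [h3] at h4
    have h5 : ∑ j ∈ univ.erase i, ((a j : ℝ) - n / (r + 1)) ≤ ∑ j ∈ univ.erase i, (e : ℝ) :=
      Finset.sum_le_sum fun j _ => h2 j
    rw [Finset.sum_const, card_erase_of_mem (mem_univ _), card_univ, Fintype.card_fin,
      nsmul_eq_mul, Nat.add_sub_cancel] at h5
    nlinarith
  · have : (0 : ℝ) ≤ r := Nat.cast_nonneg _
    nlinarith [h2 i]

end Pool.Agent.Y81.CE
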