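import Pool.Agent.Y81.CE.Comb
import Pool.Agent.Y81.CE.Num

set_option autoImplicit false

/-! Expansions of the numbers of labelled copies. -/

namespace Pool.Agent.Y81.CE

open SimpleGraph Finset H422CE

open scoped Classical in
/-- upper first order coefficient -/
noncomputable def beta {h r : ℕ} (H : SimpleGraph (Fin h)) (δ : Fin (r + 1) → ℝ) (d : ℕ)
    (χ : Fin h → Fin (r + 1)) : ℝ :=
  if mono H χ = ∅ then ∑ x, (δ (χ x) - rk χ x) else if #(mono H χ) = 1 then (d : ℝ) else 0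

open scoped Classical in
/-- lower first order coefficient -/
noncomputable def gamma {h r : ℕ} (H : SimpleGraph (Fin h)) (δ : Fin (r + 1) → ℝ) (t : ℕ)
    (χ : Fin h → Fin (r + 1)) : ℝ :=
  (if mono H χ = ∅ then ∑ x, (δ (χ x) - t - rk χ x) else 0) + #(ctr H χ) * t

open scoped Classical in
/-- leading coefficient -/
noncomputable def lead {h r : ℕ} (H : SimpleGraph (Fin h)) (χ : Fin h → Fin (r + 1)) : ℝ :=
  if mono H χ = ∅ then 1 else 0

lemma rk_real {h r : ℕ} (χ : Fin h → Fin (r + 1)) (x : Fin h) : (0 : ℝ) ≤ rk χ x ∧ (rk χ x : ℝ) ≤ h :=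
  ⟨Nat.cast_nonneg _, by exact_mod_cast rk_le χ x⟩

lemma upper (m r d : ℕ) (C : ℝ) (hC : 0 ≤ C) : ∃ K : ℝ, 0 ≤ K ∧ ∀ (n : ℕ) (N : ℝ), 1 ≤ N → C + (m + 2) ≤ N →
    ∀ (H : SimpleGraph (Fin (m + 2))) (G : SimpleGraph (Fin n)) [DecidableRel G.Adj] (c : Fin n → Fin (r + 1)),
    (∀ v, #{w | G.Adj v w ∧ c w = c v} ≤ d) → (∀ i, |(#{v | c v = i} : ℝ) - N| ≤ C) →
    ∀ χ : Fin (m + 2) → Fin (r + 1), (#(cps H G c χ) : ℝ) ≤
      lead H χ * N ^ (m + 2) + N ^ (m + 1) * beta H (fun i => (#{v | c v = i} : ℝ) - N) d χ + K * N ^ m := by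
  classical
  obtain ⟨K1, hK1, h1⟩ := expand m (C + (m + 2)) (by positivity)
  obtain ⟨K2, hK2, h2⟩ := pow_up m C hC
  refine ⟨K1 + d * K2 + d ^ 2 * (1 + C) ^ m, by positivity, ?_⟩
  intro n N hN hCN H G _ c hd ha χ
  have hN0 : 0 < N := by linarith
  have hNm : 0 < N ^ m := by positivity
  have hA : ∀ i, #{v | c v = i} ≤ ⌊N + C⌋₊ := by
    intro i
    apply Nat.le_floor
    have := (abs_le.1 (ha i)).2
    linarith
  have hA2 : (⌊N + C⌋₊ : ℝ) ≤ N + C := Nat.floor_le (by linarith)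
  by_cases hm : mono H χ = ∅
  · have h3 := up0 G H c χ
    have h4 : (#(cps H G c χ) : ℝ) ≤ ∏ x, (N + (((#{v | c v = χ x} : ℝ) - N) - rk χ x)) := by
      refine (Nat.cast_le.2 h3).trans (le_of_eq ?_)
      rw [Nat.cast_prod]
      refine Finset.prod_congr rfl fun x _ => ?_
      rw [Nat.cast_sub]
      · ring
      · have h5 := (abs_le.1 (ha (χ x))).1
        have h6 := (rk_real χ x).2
        push_cast at h6
        have h7 : (rk χ x : ℝ) ≤ #{v | c v = χ x} := by linarith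
        exact_mod_cast h7
    have h5 := h1 N hN (fun x => ((#{v | c v = χ x} : ℝ) - N) - rk χ x) (by
      intro x
      have h5 := abs_le.1 (ha (χ x))
      have h6 := rk_real χ x
      push_cast at h6
      rw [abs_le]
      constructor <;> linarith [h5.1, h5.2, h6.1, h6.2])
    have h6 := (abs_le.1 h5).2
    have h7 : 0 ≤ (d : ℝ) * K2 * N ^ m := by positivity
    have h8 : 0 ≤ (d : ℝ) ^ 2 * (1 + C) ^ m * N ^ m := by positivity
    rw [lead, if_pos hm, beta, if_pos hm]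
    nlinarith
  · have hne : (mono H χ).Nonempty := Finset.nonempty_iff_ne_empty.2 hm
    rw [lead, if_neg hm, beta, if_neg hm]
    by_cases h1' : #(mono H χ) = 1
    · rw [if_pos h1']
      have h3 := up1 G H c hd hA χ hne
      have e : m + 2 - 1 = m + 1 := rfl
      rw [e] at h3
      have h4 : (#(cps H G c χ) : ℝ) ≤ d * (⌊N + C⌋₊ : ℝ) ^ (m + 1) := by exact_mod_cast h3
      have h5 : (⌊N + C⌋₊ : ℝ) ^ (m + 1) ≤ (N + C) ^ (m + 1) := pow_le_pow_left₀ (Nat.cast_nonneg _) hA2 _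
      have h6 := h5.trans (h2 N hN)
      have h7 : (d : ℝ) * (⌊N + C⌋₊ : ℝ) ^ (m + 1) ≤ d * (N ^ (m + 1) + K2 * N ^ m) :=
        mul_le_mul_of_nonneg_left h6 (Nat.cast_nonneg _)
      have h8 : 0 ≤ K1 * N ^ m := by positivity
      have h9 : 0 ≤ (d : ℝ) ^ 2 * (1 + C) ^ m * N ^ m := by positivity
      nlinarith
    · rw [if_neg h1']
      have h0 : 1 < #(mono H χ) := by
        have := Finset.card_pos.2 hne
        omega
      have h3 := up2 G H c hd hA χ h0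
      have e : m + 2 - 2 = m := rfl
      rw [e] at h3
      have h4 : (#(cps H G c χ) : ℝ) ≤ d ^ 2 * (⌊N + C⌋₊ : ℝ) ^ m := by exact_mod_cast h3
      have h5 : (⌊N + C⌋₊ : ℝ) ^ m ≤ ((1 + C) * N) ^ m := by
        apply pow_le_pow_left₀ (Nat.cast_nonneg _)
        nlinarith
      rw [mul_pow] at h5
      have h7 : (d : ℝ) ^ 2 * (⌊N + C⌋₊ : ℝ) ^ m ≤ d ^ 2 * ((1 + C) ^ m * N ^ m) :=
        mul_le_mul_of_nonneg_left h5 (by positivity)
      have h8 : 0 ≤ K1 * N ^ m := by positivity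
      have h9 : 0 ≤ (d : ℝ) * K2 * N ^ m := by positivity
      nlinarith

lemma lower (m r t : ℕ) (C : ℝ) (hC : 0 ≤ C) : ∃ K : ℝ, 0 ≤ K ∧ ∀ (n : ℕ) (N : ℝ), 1 ≤ N →
    C + t + (m + 2) + 1 ≤ N → (r + 1) * t ≤ n → (∀ i, |(#{v | cr r n v = i} : ℝ) - N| ≤ C) →
    ∀ (H : SimpleGraph (Fin (m + 2))) (χ : Fin (m + 2) → Fin (r + 1)),
      lead H χ * N ^ (m + 2) + N ^ (m + 1) * gamma H (fun i => (#{v | cr r n v = i} : ℝ) - N) t χ - K * N ^ m ≤
      (#(cps H (An (r + 1) ((r + 1) * t) n) (cr r n) χ) : ℝ) := by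
  classical
  obtain ⟨K1, hK1, h1⟩ := expand m (C + t + (m + 2)) (by positivity)
  obtain ⟨K2, hK2, h2⟩ := pow_low m (C + t + (m + 2) + 1) (by positivity)
  refine ⟨K1 + (m + 2) * t * K2, by positivity, ?_⟩
  intro n N hN hCN hn ha H χ
  have hN0 : 0 < N := by linarith
  have hNm : 0 < N ^ m := by positivity
  have hm0 : (0 : ℝ) ≤ m := Nat.cast_nonneg _
  have ht0 : (0 : ℝ) ≤ t := Nat.cast_nonneg _
  obtain ⟨B, hBdef⟩ : ∃ B, B = ⌊N - (C + t + (m + 2))⌋₊ := ⟨_, rfl⟩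
  have hB1 : (B : ℝ) ≤ N - (C + t + (m + 2)) := by
    rw [hBdef]
    exact Nat.floor_le (by linarith)
  have hB2 : N - (C + t + (m + 2) + 1) ≤ B := by
    have := Nat.lt_floor_add_one (N - (C + t + (m + 2)))
    rw [← hBdef] at this
    linarith
  have hB : ∀ i, B + t + (m + 2) ≤ #{v : Fin n | cr r n v = i} := by
    intro i
    have h3 := (abs_le.1 (ha i)).1
    have h4 : ((B + t + (m + 2) : ℕ) : ℝ) ≤ #{v : Fin n | cr r n v = i} := by
      push_cast
      linarith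
    exact_mod_cast h4
  have h3 := low hn H χ B hB
  have e : m + 2 - 1 = m + 1 := rfl
  rw [e] at h3
  have h4 : ((if mono H χ = ∅ then ∏ x, (#{v : Fin n | cr r n v = χ x} - t - rk χ x) else 0 : ℕ) : ℝ) +
      #(ctr H χ) * (t * (B : ℝ) ^ (m + 1)) ≤ #(cps H (An (r + 1) ((r + 1) * t) n) (cr r n) χ) := by
    exact_mod_cast h3
  have hctr : (#(ctr H χ) : ℝ) ≤ m + 2 := by
    have : #(ctr H χ) ≤ m + 2 := (card_le_univ _).trans (by rw [Fintype.card_fin])
    exact_mod_cast this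
  have hctr0 : (0 : ℝ) ≤ #(ctr H χ) := Nat.cast_nonneg _
  have h5 : N ^ (m + 1) - K2 * N ^ m ≤ (B : ℝ) ^ (m + 1) :=
    (h2 N hN hCN).trans (pow_le_pow_left₀ (by linarith) hB2 _)
  have h6 : (#(ctr H χ) : ℝ) * (t * (N ^ (m + 1) - K2 * N ^ m)) ≤ #(ctr H χ) * (t * (B : ℝ) ^ (m + 1)) :=
    mul_le_mul_of_nonneg_left (mul_le_mul_of_nonneg_left h5 ht0) hctr0
  have h7 : (#(ctr H χ) : ℝ) * (t * (K2 * N ^ m)) ≤ (m + 2) * (t * (K2 * N ^ m)) :=
    mul_le_mul_of_nonneg_right hctr (by positivity)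
  have h8 : (#(ctr H χ) : ℝ) * t * N ^ (m + 1) - (m + 2) * t * K2 * N ^ m ≤
      #(ctr H χ) * (t * (B : ℝ) ^ (m + 1)) := by
    nlinarith
  by_cases hm : mono H χ = ∅
  · rw [if_pos hm] at h4
    have h9 : ((∏ x, (#{v : Fin n | cr r n v = χ x} - t - rk χ x) : ℕ) : ℝ) =
        ∏ x, (N + (((#{v | cr r n v = χ x} : ℝ) - N) - t - rk χ x)) := by
      rw [Nat.cast_prod]
      refine Finset.prod_congr rfl fun x _ => ?_
      have h10 := hB (χ x)
      have h11 := rk_le χ x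
      rw [Nat.cast_sub (by omega), Nat.cast_sub (by omega)]
      ring
    rw [h9] at h4
    have h10 := h1 N hN (fun x => ((#{v | cr r n v = χ x} : ℝ) - N) - t - rk χ x) (by
      intro x
      have h5 := abs_le.1 (ha (χ x))
      have h6 := rk_real χ x
      push_cast at h6
      rw [abs_le]
      constructor <;> linarith [h5.1, h5.2, h6.1, h6.2])
    have h11 := (abs_le.1 h10).1
    rw [lead, if_pos hm, gamma, if_pos hm]
    nlinarith
  · rw [if_neg hm] at h4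
    rw [lead, if_neg hm, gamma, if_neg hm]
    have h9 : 0 ≤ K1 * N ^ m := by positivity
    push_cast at h4
    nlinarith

end Pool.Agent.Y81.CE
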