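import Pool.Agent.Y81.CE.Count

set_option autoImplicit false

/-! Labelled copies sorted by colour patterns, and upper bounds. -/

namespace Pool.Agent.Y81.CE

open SimpleGraph Finset

open scoped Classical in
/-- labelled copies of `H` in `G` with colour pattern `χ` -/
noncomputable def cps {n h : ℕ} {K : Type*} (H : SimpleGraph (Fin h)) (G : SimpleGraph (Fin n)) (c : Fin n → K)
    (χ : Fin h → K) : Finset (Fin h → Fin n) :=
  {φ | Function.Injective φ ∧ (∀ a b, H.Adj a b → G.Adj (φ a) (φ b)) ∧ ∀ x, c (φ x) = χ x}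

open scoped Classical in
/-- monochromatic edges -/
noncomputable def mono {h R : ℕ} (H : SimpleGraph (Fin h)) (χ : Fin h → Fin R) : Finset (Fin h × Fin h) :=
  {e | e.1 < e.2 ∧ H.Adj e.1 e.2 ∧ χ e.1 = χ e.2}

lemma mem_mono {h R : ℕ} (H : SimpleGraph (Fin h)) (χ : Fin h → Fin R) (e : Fin h × Fin h) :
    e ∈ mono H χ ↔ e.1 < e.2 ∧ H.Adj e.1 e.2 ∧ χ e.1 = χ e.2 := by
  classical
  simp [mono]

lemma card_copy_sum {n h R : ℕ} (G : SimpleGraph (Fin n)) (H : SimpleGraph (Fin h)) (c : Fin n → Fin R) :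
    Nat.card (Copy H G) = ∑ χ : Fin h → Fin R, #(cps H G c χ) := by
  classical
  let S : Finset (Fin h → Fin n) := {φ | Function.Injective φ ∧ ∀ a b, H.Adj a b → G.Adj (φ a) (φ b)}
  let e : Copy H G ≃ {φ // φ ∈ S} :=
    { toFun := fun f => ⟨fun x => f x, by
        simp only [S, mem_filter, mem_univ, true_and]
        exact ⟨f.injective, fun a b hab => f.toHom.map_adj hab⟩⟩
      invFun := fun φ => ⟨⟨φ.1, by
        intro a b hab
        have h2 := φ.2
        simp only [S, mem_filter, mem_univ, true_and] at h2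
        exact h2.2 a b hab⟩, by
        have h2 := φ.2
        simp only [S, mem_filter, mem_univ, true_and] at h2
        exact h2.1⟩
      left_inv := by
        intro f
        apply Copy.ext
        intro a
        rfl
      right_inv := by
        intro φ
        rfl }
  rw [Nat.card_congr e, Nat.card_eq_fintype_card, Fintype.card_coe]
  rw [Finset.card_eq_sum_card_fiberwise (f := fun φ => (fun x => c (φ x) : Fin h → Fin R)) (t := univ)
    (fun _ _ => mem_univ _)]
  refine Finset.sum_congr rfl fun χ _ => ?_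
  congr 1
  ext φ
  simp only [S, cps, mem_filter, mem_univ, true_and]
  constructor
  · rintro ⟨⟨h1, h2⟩, h3⟩
    exact ⟨h1, h2, fun x => congrFun h3 x⟩
  · rintro ⟨h1, h2, h3⟩
    exact ⟨⟨h1, h2⟩, funext h3⟩

lemma up0 {n h R : ℕ} (G : SimpleGraph (Fin n)) (H : SimpleGraph (Fin h)) (c : Fin n → Fin R)
    (χ : Fin h → Fin R) :
    #(cps H G c χ) ≤ ∏ x, (#{v | c v = χ x} - rk χ x) := by
  classical
  rw [← inj_count c h χ]
  apply card_le_card
  intro φ hφ
  simp only [cps, mem_filter, mem_univ, true_and] at hφ ⊢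
  exact ⟨hφ.1, hφ.2.2⟩

lemma up1 {n h R : ℕ} (G : SimpleGraph (Fin n)) [DecidableRel G.Adj] (H : SimpleGraph (Fin h))
    (c : Fin n → Fin R) {d A : ℕ} (hd : ∀ v, #{w | G.Adj v w ∧ c w = c v} ≤ d)
    (hA : ∀ i, #{v | c v = i} ≤ A) (χ : Fin h → Fin R) (hm : (mono H χ).Nonempty) :
    #(cps H G c χ) ≤ d * A ^ (h - 1) := by
  classical
  obtain ⟨e, he⟩ := hm
  rw [mem_mono] at he
  have := mono_bound c G hd hA χ {e.2} (fun _ => e.1) (by
      intro y hy
      rw [mem_singleton]
      exact he.1.ne) (by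
      intro y hy
      rw [mem_singleton] at hy
      rw [hy]
      exact he.2.2) (cps H G c χ) (by
      intro φ hφ
      simp only [cps, mem_filter, mem_univ, true_and] at hφ
      refine ⟨hφ.2.2, ?_⟩
      intro y hy
      rw [mem_singleton] at hy
      rw [hy]
      exact hφ.2.1 _ _ he.2.1)
  simpa using this

lemma up2' {n h R : ℕ} (G : SimpleGraph (Fin n)) [DecidableRel G.Adj] (H : SimpleGraph (Fin h))
    (c : Fin n → Fin R) {d A : ℕ} (hd : ∀ v, #{w | G.Adj v w ∧ c w = c v} ≤ d)
    (hA : ∀ i, #{v | c v = i} ≤ A) (χ : Fin h → Fin R) (y z py pz : Fin h) (hyz : y ≠ z)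
    (h1 : py ≠ z) (h2 : pz ≠ y) (hy : H.Adj py y) (hz : H.Adj pz z) (cy : χ py = χ y) (cz : χ pz = χ z) :
    #(cps H G c χ) ≤ d ^ 2 * A ^ (h - 2) := by
  classical
  have := mono_bound c G hd hA χ {y, z} (fun w => if w = y then py else pz) (by
      intro w hw
      rw [mem_insert, mem_singleton] at hw ⊢
      rcases hw with rfl | rfl
      · rw [if_pos rfl]
        rintro (h | h)
        · exact hy.ne h
        · exact h1 h
      · rw [if_neg hyz.symm]
        rintro (h | h)
        · exact h2 h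
        · exact hz.ne h) (by
      intro w hw
      rw [mem_insert, mem_singleton] at hw
      rcases hw with rfl | rfl
      · rw [if_pos rfl]; exact cy
      · rw [if_neg hyz.symm]; exact cz) (cps H G c χ) (by
      intro φ hφ
      simp only [cps, mem_filter, mem_univ, true_and] at hφ
      refine ⟨hφ.2.2, ?_⟩
      intro w hw
      rw [mem_insert, mem_singleton] at hw
      rcases hw with rfl | rfl
      · rw [if_pos rfl]; exact hφ.2.1 _ _ hy
      · rw [if_neg hyz.symm]; exact hφ.2.1 _ _ hz)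
  rwa [card_pair hyz] at this

lemma up2 {n h R : ℕ} (G : SimpleGraph (Fin n)) [DecidableRel G.Adj] (H : SimpleGraph (Fin h))
    (c : Fin n → Fin R) {d A : ℕ} (hd : ∀ v, #{w | G.Adj v w ∧ c w = c v} ≤ d)
    (hA : ∀ i, #{v | c v = i} ≤ A) (χ : Fin h → Fin R) (hm : 1 < #(mono H χ)) :
    #(cps H G c χ) ≤ d ^ 2 * A ^ (h - 2) := by
  classical
  obtain ⟨⟨a, b⟩, he, ⟨a', b'⟩, he', hne⟩ := Finset.one_lt_card.1 hm
  rw [mem_mono] at he he'
  simp only at he he'
  obtain ⟨l1, j1, k1⟩ := he
  obtain ⟨l2, j2, k2⟩ := he'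
  by_cases e1 : b = b'
  · subst e1
    have : a ≠ a' := fun h => hne (by rw [h])
    exact up2' G H c hd hA χ a a' b b this l2.ne' l1.ne' j1.symm j2.symm k1.symm k2.symm
  · by_cases e2 : a = b'
    · subst e2
      have h3 : b ≠ a' := by
        intro h
        rw [h] at l1
        exact absurd (l1.trans l2) (lt_irrefl _)
      exact up2' G H c hd hA χ b a' a a h3 l2.ne' l1.ne j1 j2.symm k1 k2.symm
    · by_cases e3 : a' = b
      · subst e3
        exact up2' G H c hd hA χ a b' a' a' e2 l2.ne l1.ne' j1.symm j2 k1.symm k2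
      · exact up2' G H c hd hA χ b b' a a' e1 e2 e3 j1 j2 k1 k2

end Pool.Agent.Y81.CE
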