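import Mathlib

set_option autoImplicit false

/-! Counting labelled copies by the colours of the vertices. -/

namespace Pool.Agent.Y81.CE

open SimpleGraph Finset

/-- number of later elements with the same colour -/
def rk {h : ℕ} {K : Type*} [DecidableEq K] (χ : Fin h → K) (x : Fin h) : ℕ :=
  #{y : Fin h | x < y ∧ χ y = χ x}

lemma rk_le {h : ℕ} {K : Type*} [DecidableEq K] (χ : Fin h → K) (x : Fin h) : rk χ x ≤ h := by
  unfold rk
  exact (card_le_univ _).trans (by rw [Fintype.card_fin])

lemma rk_zero {h : ℕ} {K : Type*} [DecidableEq K] (χ : Fin (h + 1) → K) :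
    rk χ 0 = #{j : Fin h | χ j.succ = χ 0} := by
  unfold rk
  rw [Fin.card_filter_univ_succ]
  simp [Fin.succ_pos]

lemma rk_succ {h : ℕ} {K : Type*} [DecidableEq K] (χ : Fin (h + 1) → K) (x : Fin h) :
    rk χ x.succ = rk (fun j : Fin h => χ j.succ) x := by
  unfold rk
  rw [Fin.card_filter_univ_succ]
  simp

lemma inj_count {K V : Type*} [DecidableEq K] [Fintype V] [DecidableEq V] (c : V → K) :
    ∀ (h : ℕ) (χ : Fin h → K),
    #{φ : Fin h → V | Function.Injective φ ∧ ∀ x, c (φ x) = χ x} = ∏ x, (#{v | c v = χ x} - rk χ x) := by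
  classical
  intro h
  induction h with
  | zero =>
    intro χ
    simp [Function.injective_of_subsingleton]
  | succ h ih =>
    intro χ
    have key : #{φ : Fin (h + 1) → V | Function.Injective φ ∧ ∀ x, c (φ x) = χ x} =
        ∑ ψ ∈ ({ψ : Fin h → V | Function.Injective ψ ∧ ∀ x, c (ψ x) = χ x.succ} : Finset (Fin h → V)),
          #{v : V | c v = χ 0 ∧ v ∉ Set.range ψ} := by
      rw [← Finset.card_sigma]
      refine Finset.card_bij' (fun φ _ => ⟨Fin.tail φ, φ 0⟩) (fun x _ => Fin.cons x.2 x.1) ?_ ?_ ?_ ?_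
      · intro φ hφ
        simp only [mem_filter, mem_univ, true_and] at hφ
        simp only [mem_sigma, mem_filter, mem_univ, true_and]
        refine ⟨⟨fun a b hab => ?_, fun x => hφ.2 x.succ⟩, hφ.2 0, ?_⟩
        · exact Fin.succ_injective _ (hφ.1 hab)
        · rintro ⟨j, hj⟩
          exact absurd (hφ.1 hj) (Fin.succ_ne_zero j)
      · rintro ⟨ψ, v⟩ hx
        simp only [mem_sigma, mem_filter, mem_univ, true_and] at hx
        simp only [mem_filter, mem_univ, true_and]
        refine ⟨Fin.cons_injective_iff.2 ⟨hx.2.2, hx.1.1⟩, fun x => ?_⟩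
        refine Fin.cases ?_ (fun j => ?_) x
        · simpa using hx.2.1
        · simpa using hx.1.2 j
      · intro φ _
        exact Fin.cons_self_tail φ
      · rintro ⟨ψ, v⟩ _
        simp
    rw [key, Fin.prod_univ_succ]
    have h2 : ∀ ψ ∈ ({ψ : Fin h → V | Function.Injective ψ ∧ ∀ x, c (ψ x) = χ x.succ} : Finset (Fin h → V)),
        #{v : V | c v = χ 0 ∧ v ∉ Set.range ψ} = #{v | c v = χ 0} - rk χ 0 := by
      intro ψ hψ
      simp only [mem_filter, mem_univ, true_and] at hψ
      have e : ({v : V | c v = χ 0 ∧ v ∉ Set.range ψ} : Finset V) =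
          ({v | c v = χ 0} : Finset V) \ ({j : Fin h | χ j.succ = χ 0} : Finset (Fin h)).image ψ := by
        ext v
        simp only [mem_filter, mem_univ, true_and, mem_sdiff, mem_image, Set.mem_range]
        constructor
        · rintro ⟨h1, h2⟩
          refine ⟨h1, ?_⟩
          rintro ⟨j, _, hj⟩
          exact h2 ⟨j, hj⟩
        · rintro ⟨h1, h2⟩
          refine ⟨h1, ?_⟩
          rintro ⟨j, hj⟩
          refine h2 ⟨j, ?_, hj⟩
          rw [← hψ.2 j, hj, h1]
      rw [e, card_sdiff_of_subset, card_image_of_injective _ hψ.1, rk_zero]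
      intro v hv
      simp only [mem_image, mem_filter, mem_univ, true_and] at hv ⊢
      obtain ⟨j, hj, rfl⟩ := hv
      rw [hψ.2 j, hj]
    rw [Finset.sum_congr rfl h2, Finset.sum_const, smul_eq_mul, ih (fun j => χ j.succ), mul_comm]
    congr 1
    refine Finset.prod_congr rfl fun x _ => ?_
    rw [rk_succ]

/-- maps with prescribed colours and bounded choice at the vertices of `T` -/
lemma mono_bound {h : ℕ} {K V : Type*} [DecidableEq K] [Fintype V] [DecidableEq V] (c : V → K)
    (G : SimpleGraph V) [DecidableRel G.Adj] {d A : ℕ} (hd : ∀ v, #{w | G.Adj v w ∧ c w = c v} ≤ d)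
    (hA : ∀ i, #{v | c v = i} ≤ A) (χ : Fin h → K) (T : Finset (Fin h)) (p : Fin h → Fin h)
    (hp : ∀ y ∈ T, p y ∉ T) (hχ : ∀ y ∈ T, χ (p y) = χ y) (s : Finset (Fin h → V))
    (hs : ∀ φ ∈ s, (∀ x, c (φ x) = χ x) ∧ ∀ y ∈ T, G.Adj (φ (p y)) (φ y)) :
    #s ≤ d ^ #T * A ^ (h - #T) := by
  classical
  rcases s.eq_empty_or_nonempty with rfl | ⟨φ₀, hφ₀⟩
  · simp
  let ob : (Fin h → V) → (Fin h → V) := fun φ x => if x ∈ T then φ₀ x else φ x
  have h1 : #s ≤ d ^ #T * #(s.image ob) := by
    apply Finset.card_le_mul_card_image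
    intro ψ hψ
    obtain ⟨φ₁, hφ₁, rfl⟩ := mem_image.1 hψ
    have hsub : (s.filter fun φ => ob φ = ob φ₁) ⊆ Fintype.piFinset (fun x : Fin h =>
        if x ∈ T then ({w | G.Adj (φ₁ (p x)) w ∧ c w = c (φ₁ (p x))} : Finset V) else {φ₁ x}) := by
      intro φ hφ
      rw [mem_filter] at hφ
      have hoff : ∀ x, x ∉ T → φ x = φ₁ x := by
        intro x hx
        have := congrFun hφ.2 x
        simpa [ob, hx] using this
      rw [Fintype.mem_piFinset]
      intro x
      by_cases hx : x ∈ T
      · rw [if_pos hx, mem_filter]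
        have a1 := (hs φ hφ.1).2 x hx
        rw [hoff (p x) (hp x hx)] at a1
        refine ⟨mem_univ _, a1, ?_⟩
        rw [(hs φ hφ.1).1 x, (hs φ₁ hφ₁).1 (p x), hχ x hx]
      · rw [if_neg hx, mem_singleton]
        exact hoff x hx
    refine (card_le_card hsub).trans ?_
    rw [Fintype.card_piFinset]
    have e : ∏ x : Fin h, (if x ∈ T then d else 1) = d ^ #T := by
      rw [Finset.prod_ite_mem, Finset.univ_inter, Finset.prod_const]
    rw [← e]
    refine Finset.prod_le_prod (fun _ _ => Nat.zero_le _) fun x _ => ?_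
    split_ifs with hx
    · exact hd _
    · simp
  have h2 : #(s.image ob) ≤ A ^ (h - #T) := by
    have hsub : s.image ob ⊆ Fintype.piFinset (fun x : Fin h =>
        if x ∈ T then ({φ₀ x} : Finset V) else ({v | c v = χ x} : Finset V)) := by
      intro ψ hψ
      obtain ⟨φ₁, hφ₁, rfl⟩ := mem_image.1 hψ
      rw [Fintype.mem_piFinset]
      intro x
      by_cases hx : x ∈ T
      · simp [ob, hx]
      · simp [ob, hx, (hs φ₁ hφ₁).1 x]
    refine (card_le_card hsub).trans ?_
    rw [Fintype.card_piFinset]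
    have e : ∏ x : Fin h, (if x ∈ Tᶜ then A else 1) = A ^ (h - #T) := by
      rw [Finset.prod_ite_mem, Finset.univ_inter, Finset.prod_const, card_compl, Fintype.card_fin]
    rw [← e]
    refine Finset.prod_le_prod (fun _ _ => Nat.zero_le _) fun x _ => ?_
    by_cases hx : x ∈ T
    · simp [hx]
    · simp only [hx, if_false, mem_compl, not_false_eq_true, if_true]
      exact hA _
  exact h1.trans (Nat.mul_le_mul_left _ h2)

end Pool.Agent.Y81.CE
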