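import Pool.Agent.Y81.CE.Compare
import Pool.Agent.H422R3.CEFinal

set_option autoImplicit false

/-! The comparison of the numbers of labelled copies. -/

namespace Pool.Agent.Y81.CE

open SimpleGraph Finset H422CE

lemma coef {h r t : ℕ} (H : SimpleGraph (Fin h)) (δ δ' : Fin (r + 1) → ℝ) (hδ : ∑ i, δ i = 0)
    (hδ' : ∑ i, δ' i = 0) (χ0 : Fin h → Fin (r + 1)) (h0 : 1 < #(mono H χ0)) (h0' : 0 < #(ctr H χ0))
    (ht : 4 * (r + 1) ^ h + 1 ≤ t) :
    1 ≤ ∑ χ : Fin h → Fin (r + 1), gamma H δ' t χ - ∑ χ : Fin h → Fin (r + 1), beta H δ (2 * (t + 2)) χ := by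
  classical
  have ht0 : (0 : ℝ) ≤ t := Nat.cast_nonneg _
  have key : ∀ χ : Fin h → Fin (r + 1),
      (if mono H χ = ∅ then ∑ x, (δ' (χ x) - δ (χ x)) else 0) - 4 + (if χ = χ0 then (t : ℝ) else 0) ≤
        gamma H δ' t χ - beta H δ (2 * (t + 2)) χ := by
    intro χ
    by_cases hm : mono H χ = ∅
    · have hne : χ ≠ χ0 := by
        rintro rfl
        rw [hm] at h0
        simp at h0
      rw [gamma, beta, if_pos hm, if_pos hm, if_pos hm, if_neg hne, ctr_of_empty H χ hm]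
      simp only [Finset.sum_sub_distrib, Finset.sum_const, card_univ, Fintype.card_fin, nsmul_eq_mul]
      linarith
    · rw [gamma, beta, if_neg hm, if_neg hm, if_neg hm]
      by_cases h1 : #(mono H χ) = 1
      · have hne : χ ≠ χ0 := by
          rintro rfl
          omega
        rw [if_pos h1, if_neg hne, ctr_of_one H χ h1]
        push_cast
        linarith
      · rw [if_neg h1]
        by_cases h2 : χ = χ0
        · subst h2
          rw [if_pos rfl]
          have h3 : (1 : ℝ) ≤ #(ctr H χ) := by exact_mod_cast h0'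
          nlinarith
        · rw [if_neg h2]
          have h3 : (0 : ℝ) ≤ #(ctr H χ) * t := by positivity
          linarith
  have hs := Finset.sum_le_sum (s := (univ : Finset (Fin h → Fin (r + 1)))) fun χ _ => key χ
  rw [Finset.sum_sub_distrib, Finset.sum_add_distrib, Finset.sum_sub_distrib] at hs
  have e1 : ∑ χ : Fin h → Fin (r + 1), (if mono H χ = ∅ then ∑ x, (δ' (χ x) - δ (χ x)) else 0) = 0 := by
    rw [← Finset.sum_filter, Finset.sum_comm]
    apply Finset.sum_eq_zero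
    intro x _
    rw [Finset.sum_sub_distrib, sum_shift H δ' hδ' x, sum_shift H δ hδ x, sub_zero]
  have e2 : ∑ χ : Fin h → Fin (r + 1), (if χ = χ0 then (t : ℝ) else 0) = t := by
    rw [Finset.sum_ite_eq' univ χ0 (fun _ => (t : ℝ)), if_pos (mem_univ _)]
  have e3 : ∑ _χ : Fin h → Fin (r + 1), (4 : ℝ) = 4 * (r + 1) ^ h := by
    rw [Finset.sum_const, card_univ, Fintype.card_fun, Fintype.card_fin, Fintype.card_fin, nsmul_eq_mul]
    push_cast
    ring
  rw [e1, e2, e3] at hs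
  have h5 : (4 * (r + 1) ^ h + 1 : ℝ) ≤ t := by exact_mod_cast ht
  linarith

variable {V : Type*} [DecidableEq V] [Fintype V]

theorem class_up (G : SimpleGraph V) [DecidableRel G.Adj] {r d n : ℕ}
    (hn : Fintype.card V = n)
    (hdeg : ∀ v, r * n ≤ (r + 1) * G.degree v + (r + 1))
    (c : V → Fin (r + 1)) (hc : ∀ v, #{w | G.Adj v w ∧ c w = c v} ≤ d) (i : Fin (r + 1)) :
    (r + 1) * #{w | c w = i} ≤ n + (r + 1) * (d + 1) := by
  have h1 : ∀ v, G.degree v + #{w | c w = c v} ≤ n + d := by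
    intro v
    have h := two_sets G v {w | c w = c v}
    have h' := adj_notadj G v {w | c w = c v}
    have h'' : #{w ∈ ({w | c w = c v} : Finset V) | G.Adj v w} ≤ d := by
      refine le_trans (card_le_card ?_) (hc v)
      intro w hw
      simp only [mem_filter, mem_univ, true_and] at hw ⊢
      exact ⟨hw.2, hw.1⟩
    omega
  rcases ({w | c w = i} : Finset V).eq_empty_or_nonempty with he | ⟨v, hv⟩
  · rw [he]; simp
  · have hv' : c v = i := by simpa using hv
    subst hv'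
    have h6 := hdeg v
    have h7 : (r + 1) * (G.degree v + #{w | c w = c v}) ≤ (r + 1) * (n + d) :=
      Nat.mul_le_mul_left _ (h1 v)
    nlinarith

lemma sum_classes {n r : ℕ} (c : Fin n → Fin (r + 1)) : ∑ i, #{w | c w = i} = n := by
  have := Finset.card_eq_sum_card_fiberwise (s := (univ : Finset (Fin n))) (t := univ) (f := c)
    (fun _ _ => mem_univ _)
  rw [card_univ, Fintype.card_fin] at this
  exact this.symm

lemma cr_up {n r : ℕ} (i : Fin (r + 1)) : (r + 1) * #{w | cr r n w = i} ≤ n + (r + 1) * 1 := by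
  have h1 := card_class (p := r + 1) (q := 0) (n := n) (Nat.zero_le _) i.val
  have h2 : ({w | cr r n w = i} : Finset (Fin n)) = ({w | 0 ≤ w.val ∧ w.val % (r + 1) = i.val % (r + 1)} : Finset (Fin n)) := by
    ext w
    rw [mem_filter, mem_filter, Nat.mod_eq_of_lt i.2]
    constructor
    · rintro ⟨_, h⟩
      exact ⟨mem_univ _, Nat.zero_le _, congrArg Fin.val h⟩
    · rintro ⟨_, _, h⟩
      exact ⟨mem_univ _, Fin.ext h⟩
  rw [h2]
  omega

lemma sum_dev {n r : ℕ} (c : Fin n → Fin (r + 1)) :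
    ∑ i, ((#{w | c w = i} : ℝ) - (n : ℝ) / (r + 1)) = 0 := by
  rw [Finset.sum_sub_distrib, Finset.sum_const, card_univ, Fintype.card_fin, nsmul_eq_mul,
    ← Nat.cast_sum, sum_classes]
  push_cast
  field_simp
  ring

theorem caseII_count (m r t : ℕ) (ht : 4 * (r + 1) ^ (m + 2) + 1 ≤ t) (hR : m + 2 ≤ r + 1) :
    ∃ N3 : ℕ, ∀ n ≥ N3, ∀ (H : SimpleGraph (Fin (m + 2))),
      (∃ x y z, H.Adj x y ∧ H.Adj x z ∧ y ≠ z ∧ ¬ H.Adj y z) →
      ∀ (G : SimpleGraph (Fin n)) [DecidableRel G.Adj] (c : Fin n → Fin (r + 1)),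
      (∀ v, #{w | G.Adj v w ∧ c w = c v} ≤ 2 * (t + 2)) →
      (∀ v, r * n ≤ (r + 1) * G.degree v + (r + 1)) →
      Nat.card (Copy H G) < Nat.card (Copy H (An (r + 1) ((r + 1) * t) n)) := by
  classical
  obtain ⟨C, hC⟩ : ∃ C : ℝ, C = (r + 1) * ((2 * (t + 2) + 1 : ℕ) : ℝ) := ⟨_, rfl⟩
  have hC0 : 0 ≤ C := by rw [hC]; positivity
  have hC1 : ((r : ℝ) + 1) * ((1 : ℕ) : ℝ) ≤ C := by
    rw [hC]
    apply mul_le_mul_of_nonneg_left _ (by positivity)
    push_cast
    have : (0 : ℝ) ≤ t := Nat.cast_nonneg _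
    linarith
  obtain ⟨K1, hK1, h1⟩ := upper m r (2 * (t + 2)) C hC0
  obtain ⟨K2, hK2, h2⟩ := lower m r t C hC0
  obtain ⟨W, hW⟩ : ∃ W : ℝ, W = (r + 1) ^ (m + 2) := ⟨_, rfl⟩
  have hW0 : 0 ≤ W := by rw [hW]; positivity
  obtain ⟨M, hM⟩ := exists_nat_gt (C + t + (m + 2) + 1 + W * (K1 + K2) + 1)
  refine ⟨(r + 1) * M + (r + 1) * t, ?_⟩
  intro n hn H hH G _ c hc hdeg
  obtain ⟨x, y, z, hxy, hxz, hyz, hnyz⟩ := hH
  obtain ⟨N, hNdef⟩ : ∃ N : ℝ, N = n / (r + 1) := ⟨_, rfl⟩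
  have hNM : (M : ℝ) ≤ N := by
    rw [hNdef, le_div_iff₀ (by positivity)]
    have : (r + 1) * M ≤ n := by omega
    have h3 : ((r + 1) * M : ℝ) ≤ n := by exact_mod_cast this
    linarith
  have hWK : 0 ≤ W * (K1 + K2) := by positivity
  have hm0 : (0 : ℝ) ≤ m := Nat.cast_nonneg _
  have ht0 : (0 : ℝ) ≤ t := Nat.cast_nonneg _
  have hN1 : 1 ≤ N := by linarith
  have hNb : C + t + (m + 2) + 1 ≤ N := by linarith
  have hNW : W * (K1 + K2) < N := by linarith
  obtain ⟨χ0, hχ0, hχ0'⟩ := exists_star (R := r + 1) hR H x y z hxy hxz hyz hnyz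
  have hδ := sum_dev c
  have hδ' := sum_dev (cr r n)
  rw [← hNdef] at hδ hδ'
  have hcoef := coef H _ _ hδ hδ' χ0 hχ0 hχ0' ht
  have ha : ∀ i, |(#{v | c v = i} : ℝ) - N| ≤ C := by
    intro i
    rw [hNdef, hC]
    exact sizes (fun i => #{v | c v = i}) (sum_classes c) (class_up G (Fintype.card_fin n) hdeg c hc) i
  have ha' : ∀ i, |(#{v | cr r n v = i} : ℝ) - N| ≤ C := by
    intro i
    rw [hNdef]
    exact (sizes (fun i => #{v | cr r n v = i}) (sum_classes (cr r n)) cr_up i).trans hC1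
  have hU := Finset.sum_le_sum (s := (univ : Finset (Fin (m + 2) → Fin (r + 1)))) fun χ _ =>
    h1 n N hN1 (by linarith) H G c hc ha χ
  have hL := Finset.sum_le_sum (s := (univ : Finset (Fin (m + 2) → Fin (r + 1)))) fun χ _ =>
    h2 n N hN1 hNb (by omega) ha' H χ
  rw [Finset.sum_add_distrib, Finset.sum_add_distrib, ← Finset.sum_mul, ← Finset.mul_sum, Finset.sum_const,
    ← Nat.cast_sum, ← card_copy_sum] at hU
  rw [Finset.sum_sub_distrib, Finset.sum_add_distrib, ← Finset.sum_mul, ← Finset.mul_sum, Finset.sum_const,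
    ← Nat.cast_sum, ← card_copy_sum] at hL
  have hcard : ((#(univ : Finset (Fin (m + 2) → Fin (r + 1))) : ℕ) : ℝ) = W := by
    rw [card_univ, Fintype.card_fun, Fintype.card_fin, Fintype.card_fin, hW]
    push_cast
    ring
  rw [nsmul_eq_mul, hcard] at hU hL
  have hNm : 0 < N ^ m := by positivity
  have h5 : N ^ (m + 1) * 1 ≤ N ^ (m + 1) * (∑ χ : Fin (m + 2) → Fin (r + 1),
      gamma H (fun i => (#{v | cr r n v = i} : ℝ) - N) t χ - ∑ χ : Fin (m + 2) → Fin (r + 1),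
        beta H (fun i => (#{v | c v = i} : ℝ) - N) (2 * (t + 2)) χ) :=
    mul_le_mul_of_nonneg_left hcoef (by positivity)
  have h6 : W * (K1 + K2) * N ^ m < N * N ^ m := mul_lt_mul_of_pos_right hNW hNm
  have h7 : N ^ (m + 1) = N * N ^ m := by ring
  have h8 : (Nat.card (Copy H G) : ℝ) < Nat.card (Copy H (An (r + 1) ((r + 1) * t) n)) := by
    rw [mul_sub] at h5
    rw [h7] at h5 hU hL
    nlinarith
  exact_mod_cast h8

end Pool.Agent.Y81.CE
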