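import Pool.Agent.Y81.CE.Comb

set_option autoImplicit false

/-! A colourable graph which is not a disjoint union of cliques has a colouring in which all
monochromatic edges pass through one vertex, and there are at least two of them. -/

namespace Pool.Agent.Y81.CE

open SimpleGraph Finset

/-- from a colouring proper outside `x` with two neighbours of `x` having the colour of `x` -/
lemma star_of {h R : ℕ} (H : SimpleGraph (Fin h)) (χ : Fin h → Fin R) (x y z : Fin h) (hxy : H.Adj x y)
    (hxz : H.Adj x z) (hyz : y ≠ z) (h1 : χ x = χ y) (h2 : χ x = χ z)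
    (hmem : ∀ a b, H.Adj a b → χ a = χ b → a = x ∨ b = x) : 1 < #(mono H χ) ∧ 0 < #(ctr H χ) := by
  classical
  constructor
  · rw [Finset.one_lt_card]
    have m1 : ∀ w, H.Adj x w → χ x = χ w → (min x w, max x w) ∈ mono H χ := by
      intro w h1 h2
      rw [mem_mono]
      rcases lt_or_gt_of_ne h1.ne with h3 | h3
      · simp only [min_eq_left h3.le, max_eq_right h3.le]
        exact ⟨h3, h1, h2⟩
      · simp only [min_eq_right h3.le, max_eq_left h3.le]
        exact ⟨h3, h1.symm, h2.symm⟩
    refine ⟨_, m1 y hxy h1, _, m1 z hxz h2, ?_⟩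
    intro h
    rw [Prod.mk.injEq] at h
    apply hyz
    rcases le_total x y with a1 | a1 <;> rcases le_total x z with a2 | a2
    · have := h.2
      rwa [max_eq_right a1, max_eq_right a2] at this
    · have h1 := h.1
      rw [min_eq_left a1, min_eq_right a2] at h1
      exact absurd h1 hxz.ne
    · have h1 := h.1
      rw [min_eq_right a1, min_eq_left a2] at h1
      exact absurd h1.symm hxy.ne
    · have := h.1
      rwa [min_eq_right a1, min_eq_right a2] at this
  · rw [Finset.card_pos]
    refine ⟨x, ?_⟩
    rw [mem_ctr]
    intro e he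
    rw [mem_mono] at he
    exact hmem _ _ he.2.1 he.2.2

open scoped Classical in
/-- greedy colouring with three precoloured vertices -/
lemma greedy_col {h R : ℕ} (H : SimpleGraph (Fin h)) (c0 : Fin R) (x y z : Fin h) (hnyz : ¬ H.Adj y z)
    (hdeg : ∀ v, #{w | H.Adj v w} < R) : ∀ T : Finset (Fin h), x ∉ T → y ∉ T → z ∉ T →
    ∃ f : Fin h → Fin R, f x = c0 ∧ f y = c0 ∧ f z = c0 ∧
      ∀ a b, (a ∈ T ∨ a = y ∨ a = z) → (b ∈ T ∨ b = y ∨ b = z) → H.Adj a b → f a ≠ f b := by
  intro T
  induction T using Finset.induction_on with
  | empty =>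
    intro _ _ _
    refine ⟨fun _ => c0, rfl, rfl, rfl, ?_⟩
    intro a b ha hb hab
    exfalso
    simp only [notMem_empty, false_or] at ha hb
    rcases ha with rfl | rfl <;> rcases hb with rfl | rfl
    · exact hab.ne rfl
    · exact hnyz hab
    · exact hnyz hab.symm
    · exact hab.ne rfl
  | insert v T hv ih =>
    intro hx hy hz
    rw [mem_insert, not_or] at hx hy hz
    obtain ⟨f, fx, fy, fz, hf⟩ := ih hx.2 hy.2 hz.2
    obtain ⟨col, hcol⟩ : ∃ col : Fin R, col ∉ ({w | H.Adj v w} : Finset (Fin h)).image f := by
      by_contra hcon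
      push Not at hcon
      have h1 : (univ : Finset (Fin R)) ⊆ ({w | H.Adj v w} : Finset (Fin h)).image f := fun i _ => hcon i
      have h2 := (card_le_card h1).trans card_image_le
      rw [card_univ, Fintype.card_fin] at h2
      exact absurd (hdeg v) (not_lt.2 h2)
    have hcol' : ∀ w, H.Adj v w → col ≠ f w := by
      intro w hw h
      apply hcol
      rw [h]
      exact mem_image_of_mem f (by simpa using hw)
    refine ⟨Function.update f v col, ?_, ?_, ?_, ?_⟩
    · rw [Function.update_of_ne hx.1]; exact fx
    · rw [Function.update_of_ne hy.1]; exact fy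
    · rw [Function.update_of_ne hz.1]; exact fz
    · intro a b ha hb hab
      by_cases hav : a = v
      · subst hav
        rw [Function.update_self, Function.update_of_ne hab.ne']
        exact hcol' b hab
      · by_cases hbv : b = v
        · subst hbv
          rw [Function.update_self, Function.update_of_ne hav]
          exact (hcol' a hab.symm).symm
        · rw [Function.update_of_ne hav, Function.update_of_ne hbv]
          refine hf a b ?_ ?_ hab
          · rcases ha with ha | ha
            · exact Or.inl ((mem_insert.1 ha).resolve_left hav)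
            · exact Or.inr ha
          · rcases hb with hb | hb
            · exact Or.inl ((mem_insert.1 hb).resolve_left hbv)
            · exact Or.inr hb

/-- the special pattern, for every colourable graph which is not a disjoint union of cliques -/
lemma exists_star' {h R : ℕ} (H : SimpleGraph (Fin h)) (hcol : H.Colorable R) (x y z : Fin h)
    (hxy : H.Adj x y) (hxz : H.Adj x z) (hyz : y ≠ z) (hnyz : ¬ H.Adj y z) :
    ∃ χ : Fin h → Fin R, 1 < #(mono H χ) ∧ 0 < #(ctr H χ) := by
  classical
  obtain ⟨c⟩ := hcol
  by_cases hA : ∃ x y z, H.Adj x y ∧ H.Adj x z ∧ y ≠ z ∧ c y = c z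
  · obtain ⟨x, y, z, hxy, hxz, hyz, hc⟩ := hA
    refine ⟨Function.update c x (c y), star_of H _ x y z hxy hxz hyz ?_ ?_ ?_⟩
    · rw [Function.update_self, Function.update_of_ne hxy.ne']
    · rw [Function.update_self, Function.update_of_ne hxz.ne']
      exact hc
    · intro a b hab hc'
      by_contra hcon
      rw [not_or] at hcon
      rw [Function.update_of_ne hcon.1, Function.update_of_ne hcon.2] at hc'
      exact c.valid hab hc'
  · push Not at hA
    have hdeg : ∀ v, #{w | H.Adj v w} < R := by
      intro v
      have h1 : #(insert v ({w | H.Adj v w} : Finset (Fin h))) ≤ #(univ : Finset (Fin R)) := by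
        apply card_le_card_of_injOn c (fun _ _ => mem_univ _)
        intro a ha b hb hab
        rw [mem_coe, mem_insert, mem_filter] at ha hb
        by_contra hne
        rcases ha with rfl | ha
        · rcases hb with rfl | hb
          · exact hne rfl
          · exact c.valid hb.2 hab
        · rcases hb with rfl | hb
          · exact c.valid ha.2 hab.symm
          · exact hA v a b ha.2 hb.2 hne hab
      rw [card_insert_of_notMem (by simp), card_univ, Fintype.card_fin] at h1
      omega
    obtain ⟨f, fx, fy, fz, hf⟩ := greedy_col H (c x) x y z hnyz hdeg (({x, y, z} : Finset (Fin h))ᶜ)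
      (by simp) (by simp) (by simp)
    refine ⟨f, star_of H f x y z hxy hxz hyz (fx.trans fy.symm) (fx.trans fz.symm) ?_⟩
    intro a b hab hc'
    by_contra hcon
    rw [not_or] at hcon
    refine hf a b ?_ ?_ hab hc'
    · by_cases h1 : a = y ∨ a = z
      · exact Or.inr h1
      · left
        rw [not_or] at h1
        simp [hcon.1, h1.1, h1.2]
    · by_cases h1 : b = y ∨ b = z
      · exact Or.inr h1
      · left
        rw [not_or] at h1
        simp [hcon.2, h1.1, h1.2]

end Pool.Agent.Y81.CE
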