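import Pool.Agent.Y81.CE.Final
import Pool.Agent.Y81.CE.Greedy

set_option autoImplicit false

/-! The comparison of the numbers of labelled copies, for colourable graphs. -/

namespace Pool.Agent.Y81.CE

open SimpleGraph Finset H422CE

theorem caseII_count' (m r t : ℕ) (ht : 4 * (r + 1) ^ (m + 2) + 1 ≤ t) :
    ∃ N3 : ℕ, ∀ n ≥ N3, ∀ (H : SimpleGraph (Fin (m + 2))), H.Colorable (r + 1) →
      (∃ x y z, H.Adj x y ∧ H.Adj x z ∧ y ≠ z ∧ ¬ H.Adj y z) →
      ∀ (G : SimpleGraph (Fin n)) [DecidableRel G.Adj] (c : Fin n → Fin (r + 1)),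
      (∀ v, #{w | G.Adj v w ∧ c w = c v} ≤ 2 * (t + 2)) →
      (∀ v, r * n ≤ (r + 1) * G.degree v + (r + 1)) →
      Nat.card (Copy H G) < Nat.card (Copy H (An (r + 1) ((r + 1) * t) n)) := by
  classical
  obtain ⟨C, hC⟩ : ∃ C : ℝ, C = (r + 1) * ((2 * (t + 2) + 1 : ℕ) : ℝ) := ⟨_, rfl⟩
  have hC0 : 0 ≤ C := by rw [hC]; positivity
  have hC1 : ((r : ℝ) + 1) * ((1 : ℕ) : ℝ) ≤ C := by
    rw [hC]
    apply mul_le_mul_of_nonneg_left _ (by positivity)
    push_cast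
    have : (0 : ℝ) ≤ t := Nat.cast_nonneg _
    linarith
  obtain ⟨K1, hK1, h1⟩ := upper m r (2 * (t + 2)) C hC0
  obtain ⟨K2, hK2, h2⟩ := lower m r t C hC0
  obtain ⟨W, hW⟩ : ∃ W : ℝ, W = (r + 1) ^ (m + 2) := ⟨_, rfl⟩
  have hW0 : 0 ≤ W := by rw [hW]; positivity
  obtain ⟨M, hM⟩ := exists_nat_gt (C + t + (m + 2) + 1 + W * (K1 + K2) + 1)
  refine ⟨(r + 1) * M + (r + 1) * t, ?_⟩
  intro n hn H hcol H' G _ c hc hdeg
  obtain ⟨x, y, z, hxy, hxz, hyz, hnyz⟩ := H'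
  obtain ⟨N, hNdef⟩ : ∃ N : ℝ, N = n / (r + 1) := ⟨_, rfl⟩
  have hNM : (M : ℝ) ≤ N := by
    rw [hNdef, le_div_iff₀ (by positivity)]
    have : (r + 1) * M ≤ n := by omega
    have h3 : ((r + 1) * M : ℝ) ≤ n := by exact_mod_cast this
    linarith
  have hWK : 0 ≤ W * (K1 + K2) := by positivity
  have hm0 : (0 : ℝ) ≤ m := Nat.cast_nonneg _
  have ht0 : (0 : ℝ) ≤ t := Nat.cast_nonneg _
  have hN1 : 1 ≤ N := by linarith
  have hNb : C + t + (m + 2) + 1 ≤ N := by linarith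
  have hNW : W * (K1 + K2) < N := by linarith
  obtain ⟨χ0, hχ0, hχ0'⟩ := exists_star' (R := r + 1) H hcol x y z hxy hxz hyz hnyz
  have hδ := sum_dev c
  have hδ' := sum_dev (cr r n)
  rw [← hNdef] at hδ hδ'
  have hcoef := coef H _ _ hδ hδ' χ0 hχ0 hχ0' ht
  have ha : ∀ i, |(#{v | c v = i} : ℝ) - N| ≤ C := by
    intro i
    rw [hNdef, hC]
    exact sizes (fun i => #{v | c v = i}) (sum_classes c) (class_up G (Fintype.card_fin n) hdeg c hc) i
  have ha' : ∀ i, |(#{v | cr r n v = i} : ℝ) - N| ≤ C := by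
    intro i
    rw [hNdef]
    exact (sizes (fun i => #{v | cr r n v = i}) (sum_classes (cr r n)) cr_up i).trans hC1
  have hU := Finset.sum_le_sum (s := (univ : Finset (Fin (m + 2) → Fin (r + 1)))) fun χ _ =>
    h1 n N hN1 (by linarith) H G c hc ha χ
  have hL := Finset.sum_le_sum (s := (univ : Finset (Fin (m + 2) → Fin (r + 1)))) fun χ _ =>
    h2 n N hN1 hNb (by omega) ha' H χ
  rw [Finset.sum_add_distrib, Finset.sum_add_distrib, ← Finset.sum_mul, ← Finset.mul_sum, Finset.sum_const,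
    ← Nat.cast_sum, ← card_copy_sum] at hU
  rw [Finset.sum_sub_distrib, Finset.sum_add_distrib, ← Finset.sum_mul, ← Finset.mul_sum, Finset.sum_const,
    ← Nat.cast_sum, ← card_copy_sum] at hL
  have hcard : ((#(univ : Finset (Fin (m + 2) → Fin (r + 1))) : ℕ) : ℝ) = W := by
    rw [card_univ, Fintype.card_fun, Fintype.card_fin, Fintype.card_fin, hW]
    push_cast
    ring
  rw [nsmul_eq_mul, hcard] at hU hL
  have hNm : 0 < N ^ m := by positivity
  have h5 : N ^ (m + 1) * 1 ≤ N ^ (m + 1) * (∑ χ : Fin (m + 2) → Fin (r + 1),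
      gamma H (fun i => (#{v | cr r n v = i} : ℝ) - N) t χ - ∑ χ : Fin (m + 2) → Fin (r + 1),
        beta H (fun i => (#{v | c v = i} : ℝ) - N) (2 * (t + 2)) χ) :=
    mul_le_mul_of_nonneg_left hcoef (by positivity)
  have h6 : W * (K1 + K2) * N ^ m < N * N ^ m := mul_lt_mul_of_pos_right hNW hNm
  have h7 : N ^ (m + 1) = N * N ^ m := by ring
  have h8 : (Nat.card (Copy H G) : ℝ) < Nat.card (Copy H (An (r + 1) ((r + 1) * t) n)) := by
    rw [mul_sub] at h5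
    rw [h7] at h5 hU hL
    nlinarith
  exact_mod_cast h8

end Pool.Agent.Y81.CE
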