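import Pool.Agent.Y81.CE.Copies
import Pool.Agent.H422R3.CEConstr

set_option autoImplicit false

/-! Lower bound for the number of labelled copies with a given colour pattern in the
complete multipartite graph with some dominating vertices. -/

namespace Pool.Agent.Y81.CE

open SimpleGraph Finset H422CE

open scoped Classical in
/-- vertices contained in all monochromatic edges -/
noncomputable def ctr {h R : ℕ} (H : SimpleGraph (Fin h)) (χ : Fin h → Fin R) : Finset (Fin h) :=
  {x | ∀ e ∈ mono H χ, e.1 = x ∨ e.2 = x}

lemma mem_ctr {h R : ℕ} (H : SimpleGraph (Fin h)) (χ : Fin h → Fin R) (x : Fin h) :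
    x ∈ ctr H χ ↔ ∀ e ∈ mono H χ, e.1 = x ∨ e.2 = x := by
  classical
  simp [ctr]

/-- residue class -/
def cr (r n : ℕ) (v : Fin n) : Fin (r + 1) := ⟨v.val % (r + 1), Nat.mod_lt _ (by omega)⟩

/-- residue class together with the information whether the vertex is dominating -/
def cf (r n q : ℕ) (v : Fin n) : Fin (r + 1) × Bool := (cr r n v, decide (v.val < q))

lemma card_full {r n t : ℕ} (hn : (r + 1) * t ≤ n) (i : Fin (r + 1)) :
    #{v : Fin n | cf r n ((r + 1) * t) v = (i, true)} = t := by
  have h0 : t = #(univ : Finset (Fin t)) := by simp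
  conv_rhs => rw [h0]
  symm
  have hlt : ∀ j : Fin t, (r + 1) * j.val + i.val < (r + 1) * t := by
    intro j
    have h1 : (r + 1) * (j.val + 1) ≤ (r + 1) * t := Nat.mul_le_mul_left _ j.2
    have h2 := i.2
    rw [mul_add, mul_one] at h1
    omega
  refine Finset.card_bij (fun j _ => (⟨(r + 1) * j.val + i.val, lt_of_lt_of_le (hlt j) hn⟩ : Fin n)) ?_ ?_ ?_
  · intro j _
    simp only [mem_filter, mem_univ, true_and, cf, cr, Prod.mk.injEq, decide_eq_true_eq]
    refine ⟨?_, hlt j⟩
    apply Fin.ext
    show ((r + 1) * j.val + i.val) % (r + 1) = i.val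
    rw [Nat.mul_add_mod, Nat.mod_eq_of_lt i.2]
  · intro j _ j' _ hj
    have h1 := congrArg Fin.val hj
    simp only [add_left_inj] at h1
    exact Fin.ext (Nat.eq_of_mul_eq_mul_left (Nat.succ_pos r) h1)
  · intro v hv
    simp only [mem_filter, mem_univ, true_and, cf, cr, Prod.mk.injEq, decide_eq_true_eq] at hv
    have h1 : v.val % (r + 1) = i.val := congrArg Fin.val hv.1
    have h2 : (r + 1) * (v.val / (r + 1)) + i.val = v.val := by
      rw [← h1]; exact Nat.div_add_mod _ _
    have h3 : v.val / (r + 1) < t := by
      rw [Nat.div_lt_iff_lt_mul (Nat.succ_pos r), mul_comm]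
      exact hv.2
    exact ⟨⟨v.val / (r + 1), h3⟩, mem_univ _, Fin.ext h2⟩

lemma card_rest {r n t : ℕ} (hn : (r + 1) * t ≤ n) (i : Fin (r + 1)) :
    #{v : Fin n | cf r n ((r + 1) * t) v = (i, false)} = #{v : Fin n | cr r n v = i} - t := by
  have h1 := Finset.card_filter_add_card_filter_not (s := ({v : Fin n | cr r n v = i} : Finset (Fin n)))
    (fun v => v.val < (r + 1) * t)
  rw [filter_filter, filter_filter] at h1
  have h2 : ({v : Fin n | cr r n v = i ∧ v.val < (r + 1) * t} : Finset (Fin n)) =
      ({v : Fin n | cf r n ((r + 1) * t) v = (i, true)} : Finset (Fin n)) := by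
    ext v
    simp [cf]
  have h3 : ({v : Fin n | cr r n v = i ∧ ¬ v.val < (r + 1) * t} : Finset (Fin n)) =
      ({v : Fin n | cf r n ((r + 1) * t) v = (i, false)} : Finset (Fin n)) := by
    ext v
    simp [cf]
  rw [h2, h3, card_full hn] at h1
  omega

open scoped Classical in
lemma low {r n t h : ℕ} (hn : (r + 1) * t ≤ n) (H : SimpleGraph (Fin h)) (χ : Fin h → Fin (r + 1))
    (B : ℕ) (hB : ∀ i, B + t + h ≤ #{v : Fin n | cr r n v = i}) :
    (if mono H χ = ∅ then ∏ x, (#{v : Fin n | cr r n v = χ x} - t - rk χ x) else 0) +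
      #(ctr H χ) * (t * B ^ (h - 1)) ≤ #(cps H (An (r + 1) ((r + 1) * t) n) (cr r n) χ) := by
  classical
  let q := (r + 1) * t
  let P0 : Finset (Fin h → Fin n) := if mono H χ = ∅ then
    ({φ : Fin h → Fin n | Function.Injective φ ∧ ∀ x, cf r n q (φ x) = (χ x, false)} :
      Finset (Fin h → Fin n)) else ∅
  let Px : Fin h → Finset (Fin h → Fin n) := fun x =>
    {φ : Fin h → Fin n | Function.Injective φ ∧ ∀ w, cf r n q (φ w) = (χ w, decide (w = x))}
  have hP0 : #P0 = if mono H χ = ∅ then ∏ x, (#{v : Fin n | cr r n v = χ x} - t - rk χ x) else 0 := by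
    by_cases hm : mono H χ = ∅
    · simp only [P0, if_pos hm]
      rw [inj_count (cf r n q) h (fun x => (χ x, false))]
      refine Finset.prod_congr rfl fun x _ => ?_
      rw [card_rest hn]
      congr 1
      unfold rk
      congr 1
      ext y
      simp
    · simp [P0, hm]
  have hPx : ∀ x, t * B ^ (h - 1) ≤ #(Px x) := by
    intro x
    simp only [Px]
    rw [inj_count (cf r n q) h (fun w => (χ w, decide (w = x)))]
    have e1 : t * B ^ (h - 1) = ∏ w : Fin h, (if w = x then t else B) := by
      rw [← Finset.mul_prod_erase univ _ (mem_univ x), if_pos rfl]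
      congr 1
      rw [Finset.prod_congr rfl (g := fun _ => B)]
      · rw [prod_const, card_erase_of_mem (mem_univ _), card_univ, Fintype.card_fin]
      · intro w hw
        rw [if_neg (ne_of_mem_erase hw)]
    rw [e1]
    refine Finset.prod_le_prod (fun _ _ => Nat.zero_le _) fun w _ => ?_
    by_cases hw : w = x
    · subst hw
      rw [if_pos rfl]
      have e2 : rk (fun w' => (χ w', decide (w' = w))) w = 0 := by
        unfold rk
        rw [card_eq_zero, filter_eq_empty_iff]
        intro y _
        rintro ⟨h1, h2⟩
        simp only [Prod.mk.injEq, decide_eq_decide, iff_true] at h2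
        exact h1.ne' h2.2
      rw [e2, Nat.sub_zero]
      simp only [decide_true]
      rw [card_full hn]
    · rw [if_neg hw]
      simp only [hw, decide_false]
      have e3 := rk_le (fun w' => (χ w', decide (w' = x))) w
      rw [card_rest hn]
      have := hB (χ w)
      omega
  have hsub : P0 ∪ (ctr H χ).biUnion Px ⊆ cps H (An (r + 1) ((r + 1) * t) n) (cr r n) χ := by
    intro φ hφ
    rw [mem_union, mem_biUnion] at hφ
    simp only [cps, mem_filter, mem_univ, true_and]
    rcases hφ with hφ | ⟨x, hx, hφ⟩
    · by_cases hm : mono H χ = ∅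
      · simp only [P0, if_pos hm, mem_filter, mem_univ, true_and] at hφ
        have hc : ∀ w, cr r n (φ w) = χ w := fun w => congrArg Prod.fst (hφ.2 w)
        refine ⟨hφ.1, ?_, hc⟩
        intro a b hab
        refine ⟨fun h => hab.ne (hφ.1 h), Or.inr (Or.inr ?_)⟩
        intro h
        have h2 : χ a = χ b := by
          rw [← hc a, ← hc b]
          exact Fin.ext h
        rcases lt_or_gt_of_ne hab.ne with h3 | h3
        · have : (a, b) ∈ mono H χ := by
            rw [mem_mono]; exact ⟨h3, hab, h2⟩
          rw [hm] at this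
          exact absurd this (notMem_empty _)
        · have : (b, a) ∈ mono H χ := by
            rw [mem_mono]; exact ⟨h3, hab.symm, h2.symm⟩
          rw [hm] at this
          exact absurd this (notMem_empty _)
      · simp [P0, hm] at hφ
    · simp only [Px, mem_filter, mem_univ, true_and] at hφ
      have hc : ∀ w, cr r n (φ w) = χ w := fun w => congrArg Prod.fst (hφ.2 w)
      have hfull : (φ x).val < q := by
        have := congrArg Prod.snd (hφ.2 x)
        simpa [cf] using this
      refine ⟨hφ.1, ?_, hc⟩
      intro a b hab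
      refine ⟨fun h => hab.ne (hφ.1 h), ?_⟩
      by_cases ha : a = x
      · left; rw [ha]; exact hfull
      · by_cases hb : b = x
        · right; left; rw [hb]; exact hfull
        · right; right
          intro h
          have h2 : χ a = χ b := by
            rw [← hc a, ← hc b]
            exact Fin.ext h
          rw [mem_ctr] at hx
          rcases lt_or_gt_of_ne hab.ne with h3 | h3
          · have : (a, b) ∈ mono H χ := by
              rw [mem_mono]; exact ⟨h3, hab, h2⟩
            rcases hx _ this with h4 | h4
            · exact ha h4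
            · exact hb h4
          · have : (b, a) ∈ mono H χ := by
              rw [mem_mono]; exact ⟨h3, hab.symm, h2.symm⟩
            rcases hx _ this with h4 | h4
            · exact hb h4
            · exact ha h4
  have hdis1 : ∀ x ∈ ctr H χ, ∀ y ∈ ctr H χ, x ≠ y → Disjoint (Px x) (Px y) := by
    intro x _ y _ hxy
    rw [Finset.disjoint_left]
    intro φ h1 h2
    simp only [Px, mem_filter, mem_univ, true_and] at h1 h2
    have h3 := (h1.2 x).symm.trans (h2.2 x)
    simp only [Prod.mk.injEq, true_and, decide_true] at h3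
    have h4 : x = y := by simpa using h3
    exact hxy h4
  have hdis2 : Disjoint P0 ((ctr H χ).biUnion Px) := by
    rw [Finset.disjoint_left]
    intro φ h1 h2
    by_cases hm : mono H χ = ∅
    · simp only [P0, if_pos hm, mem_filter, mem_univ, true_and] at h1
      rw [mem_biUnion] at h2
      obtain ⟨x, _, h2⟩ := h2
      simp only [Px, mem_filter, mem_univ, true_and] at h2
      have h3 := (h1.2 x).symm.trans (h2.2 x)
      simp at h3
    · simp [P0, hm] at h1
  refine le_trans ?_ (card_le_card hsub)
  rw [card_union_of_disjoint hdis2, hP0, card_biUnion hdis1]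
  apply Nat.add_le_add_left
  rw [← smul_eq_mul, ← Finset.sum_const]
  exact Finset.sum_le_sum fun x _ => hPx x

end Pool.Agent.Y81.CE
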