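import Pool.Agent.Y81.CE.FinalCol

set_option autoImplicit false

/-! For infinitely many orders no graph maximises both the number of edges and the number of
copies of a graph which is not a disjoint union of cliques. -/

namespace Pool.Agent.Y81.CE

open SimpleGraph Finset H422CE

theorem mainCol (r t S : ℕ) (hr : 1 ≤ r) (ht : 4 * (r + 1) ^ (S + 2) + 1 ≤ t) (n₀ : ℕ) :
    ∃ n ≥ n₀, ∀ m ≤ S, ∀ H : SimpleGraph (Fin (m + 2)), H.Colorable (r + 1) →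
      (∃ x y z, H.Adj x y ∧ H.Adj x z ∧ y ≠ z ∧ ¬ H.Adj y z) →
      Ex n H (FF r ((r + 1) * t) (2 * (t + 2)) ((r + 1) * (2 * (t + 2)) + 1)) ∩
      Ex n (⊤ : SimpleGraph (Fin 2)) (FF r ((r + 1) * t) (2 * (t + 2)) ((r + 1) * (2 * (t + 2)) + 1)) = ∅ := by
  classical
  have hall : ∀ m : Fin (S + 1), ∃ N3 : ℕ, ∀ n ≥ N3, ∀ (H : SimpleGraph (Fin (m.val + 2))), H.Colorable (r + 1) →
      (∃ x y z, H.Adj x y ∧ H.Adj x z ∧ y ≠ z ∧ ¬ H.Adj y z) →
      ∀ (G : SimpleGraph (Fin n)) [DecidableRel G.Adj] (c : Fin n → Fin (r + 1)),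
      (∀ v, #{w | G.Adj v w ∧ c w = c v} ≤ 2 * (t + 2)) →
      (∀ v, r * n ≤ (r + 1) * G.degree v + (r + 1)) →
      Nat.card (Copy H G) < Nat.card (Copy H (An (r + 1) ((r + 1) * t) n)) := by
    intro m
    refine caseII_count' m.val r t (le_trans ?_ ht)
    have h1 : (r + 1) ^ (m.val + 2) ≤ (r + 1) ^ (S + 2) :=
      Nat.pow_le_pow_right (by omega) (by have := m.2; omega)
    omega
  choose N3f hN3f using hall
  obtain ⟨N3, hN3s⟩ : ∃ N3, N3 = ∑ m, N3f m := ⟨_, rfl⟩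
  obtain ⟨k, hk⟩ : ∃ k, k = t + 2 := ⟨_, rfl⟩
  obtain ⟨q, hq⟩ : ∃ q, q = (r + 1) * t := ⟨_, rfl⟩
  obtain ⟨s, hs⟩ : ∃ s, s = (r + 1) * (2 * k) + 1 := ⟨_, rfl⟩
  rw [← hk, ← hq] at hN3f
  rw [← hk, ← hq, ← hs]
  have hds : 2 * k + 1 ≤ s := by
    rw [hs]
    have := Nat.le_mul_of_pos_left (2 * k) (show 0 < r + 1 by omega)
    omega
  let E : ℕ → ℕ := fun n => extremalNumber n (FF r q (2 * k) s)
  -- lower bound for E
  have hElow : ∀ n, 2 * ((r + 1) * k) ≤ n →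
      r * n ^ 2 + 2 * k * (r + 1) * n ≤ (r + 1) * (2 * E n) + (r + 1) * n
        + 4 * k ^ 2 * (r + 1) ^ 2 := by
    intro n hn
    have h1 := Bn_deg_sum (r := r) (k := k) (n := n) hn
    rw [sum_degrees_eq_twice_card_edges] at h1
    have h2 : #(Bn (r + 1) k n).edgeFinset ≤ E n := by
      have := card_edgeFinset_le_extremalNumber
        (Bn_FF_free (r := r) (q := q) (k := k) (s := s) (n := n) (by omega))
      rwa [Fintype.card_fin] at this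
    have h3 := Nat.mul_le_mul_left (r + 1) (Nat.mul_le_mul_left 2 h2)
    omega
  -- infinitely many large increments
  have hincr : ∀ N, ∃ n ≥ N, r * n + (r + 1) * E (n - 1) ≤ (r + 1) * E n + (r + 1) := by
    intro N
    by_contra hc
    push Not at hc
    obtain ⟨N1, hN1⟩ : ∃ N1, N1 = N + 2 * ((r + 1) * k) := ⟨_, rfl⟩
    have hmono : ∀ m, (2 * (r + 1) * E (N1 + m) : ℤ) - r * (N1 + m) ^ 2 ≤
        2 * (r + 1) * E N1 - r * N1 ^ 2 := by
      intro m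
      induction m with
      | zero => simp
      | succ m ih =>
        have h1 := hc (N1 + (m + 1)) (by omega)
        have e1 : N1 + (m + 1) - 1 = N1 + m := by omega
        rw [e1] at h1
        have h2 : ((r + 1) * E (N1 + (m + 1)) + (r + 1) : ℤ)
            < r * (N1 + (m + 1)) + (r + 1) * E (N1 + m) := by exact_mod_cast h1
        push_cast
        nlinarith
    obtain ⟨C, hC⟩ : ∃ C : ℤ, C = 2 * (r + 1) * E N1 - r * N1 ^ 2 := ⟨_, rfl⟩
    obtain ⟨m, hm⟩ : ∃ m : ℕ, C + 4 * k ^ 2 * (r + 1) ^ 2 < m := by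
      obtain ⟨m, hm⟩ := exists_nat_gt (C + 4 * k ^ 2 * (r + 1) ^ 2)
      exact ⟨m, hm⟩
    have h3 := hmono m
    have h4 := hElow (N1 + m) (by omega)
    have h5 : (r * (N1 + m) ^ 2 + 2 * k * (r + 1) * (N1 + m) : ℤ) ≤
        (r + 1) * (2 * E (N1 + m)) + (r + 1) * (N1 + m) + 4 * k ^ 2 * (r + 1) ^ 2 := by
      exact_mod_cast h4
    have h6 : ((2 * k - 1) * (r + 1) * (N1 + m) : ℤ) ≤ C + 4 * k ^ 2 * (r + 1) ^ 2 := by
      rw [hC]; nlinarith
    have h7 : (N1 + m : ℤ) ≤ (2 * k - 1) * (r + 1) * (N1 + m) := by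
      have h8 : (1 : ℤ) ≤ (2 * k - 1) * (r + 1) := by
        have h9 : (1 : ℤ) ≤ 2 * k - 1 := by rw [hk]; push_cast; linarith
        have h10 : (1 : ℤ) ≤ r + 1 := by linarith
        nlinarith
      have h11 : (0 : ℤ) ≤ N1 + m := by positivity
      nlinarith
    have h12 : (0 : ℤ) ≤ N1 := by positivity
    linarith
  -- constants
  obtain ⟨c0, hc0⟩ : ∃ c0, c0 = Fintype.card (Σ i : Fin (r + 2), Fin (sz r (2 * k) s i)) := ⟨_, rfl⟩
  obtain ⟨y0, hy0⟩ : ∃ y0, y0 = c0 + q * (r + 2) := ⟨_, rfl⟩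
  obtain ⟨μ, hμ⟩ : ∃ μ, μ = y0 + (r + 1) := ⟨_, rfl⟩
  obtain ⟨R, hR⟩ : ∃ R, R = (r + 1) * s * μ + s + y0 := ⟨_, rfl⟩
  obtain ⟨C1, hC1⟩ : ∃ C1, C1 = r * y0 ^ 2 + 2 * y0 * ((r + 1) * (R + y0 + r)) := ⟨_, rfl⟩
  obtain ⟨N2, hN2⟩ := caseII_exists (r := r) (d := 2 * k) (s := s) hr hds
  obtain ⟨n, hn, hinc⟩ := hincr (n₀ + N2 + N3 + (3 * r + 2) * ((r + 1) * (1 + y0)) + C1
    + 4 * k ^ 2 * (r + 1) ^ 2 + 2 * ((r + 1) * k) + q + (r + 1) + 1)
  refine ⟨n, by omega, ?_⟩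
  intro m hm H hHc hH
  rw [Set.eq_empty_iff_forall_notMem]
  rintro G ⟨hG1, hG2⟩
  have hdeg : ∀ v, r * n ≤ (r + 1) * G.degree v + (r + 1) := by
    intro v
    have h1 := deg_ge_increment hG2 v
    have h2 : (r + 1) * E n ≤ (r + 1) * (E (n - 1) + G.degree v) := Nat.mul_le_mul_left _ h1
    nlinarith
  by_cases hF0 : (F0 r (2 * k) s) ⊑ G
  · -- case I
    obtain ⟨f⟩ := hF0
    have h1 := caseI_core G (q := q) (n := n) (c0 := c0) (y0 := y0) (μ := μ) (R := R) hr hds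
      (Fintype.card_fin n) hdeg hG2.1 f hc0 hy0 hμ hR (by omega)
    rw [← hC1, sum_degrees_eq_twice_card_edges, Ex_extremal hG2] at h1
    have h2 := hElow n (by omega)
    have h3 : (r + 1) * (2 * E n) ≤ r * n ^ 2 + 2 * q * n + C1 := h1
    have h4 : 2 * k * (r + 1) * n = 2 * q * n + 4 * (r + 1) * n := by
      rw [hk, hq]; ring
    have h5 : 3 * ((r + 1) * n) ≤ C1 + 4 * k ^ 2 * (r + 1) ^ 2 := by nlinarith
    have h6 : n ≤ 3 * ((r + 1) * n) := by nlinarith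
    omega
  · -- case II
    obtain ⟨c, hc⟩ := hN2 n (by omega) G hdeg hF0
    have h0 : N3f ⟨m, Nat.lt_succ_of_le hm⟩ ≤ N3 := by
      rw [hN3s]
      exact Finset.single_le_sum (f := N3f) (fun _ _ => Nat.zero_le _) (mem_univ _)
    have h1 := hN3f ⟨m, Nat.lt_succ_of_le hm⟩ n (by omega) H hHc hH G c hc hdeg
    have h2 := card_copy_mono G (An (r + 1) q n) H (hG1.2 _ (An_free (by omega)))
    omega

end Pool.Agent.Y81.CE
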